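import Pool.Agent.E8helper2.PS.Stm

set_option autoImplicit false

/-!
# Short windows in a thin strip
-/

namespace Pool.Agent.E8helper71.PS

open Finset Pool.Agent.E8helper2.PS

/-- Abel summation -/
theorem abel (a : ℕ → ℂ) (q : ℂ) (l : ℕ) :
    ∑ j ∈ range (l + 1), a j * q ^ j = (∑ i ∈ range (l + 1), a i) * q ^ l +
      ∑ j ∈ range l, (∑ i ∈ range (j + 1), a i) * (q ^ j - q ^ (j + 1)) := by
  induction l with
  | zero => simp
  | succ l ih =>
    rw [sum_range_succ, ih,
      sum_range_succ (fun j => (∑ i ∈ range (j + 1), a i) * (q ^ j - q ^ (j + 1))),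
      sum_range_succ (fun i => a i) (l + 1)]
    ring

theorem abel_le_one (a : ℕ → ℂ) (M q : ℝ) (hq : 0 ≤ q) (hq1 : q ≤ 1) (l : ℕ)
    (h : ∀ n, ‖∑ i ∈ range n, a i‖ ≤ M) : ‖∑ j ∈ range (l + 1), a j * (q : ℂ) ^ j‖ ≤ M := by
  rw [abel]
  have h1 : ‖(∑ i ∈ range (l + 1), a i) * (q : ℂ) ^ l‖ ≤ M * q ^ l := by
    rw [norm_mul, norm_pow, Complex.norm_real, Real.norm_of_nonneg hq]
    exact mul_le_mul_of_nonneg_right (h _) (by positivity)
  have h2 : ∀ j ∈ range l, ‖(∑ i ∈ range (j + 1), a i) * ((q : ℂ) ^ j - (q : ℂ) ^ (j + 1))‖ ≤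
      M * (q ^ j - q ^ (j + 1)) := by
    intro j _
    have h3 : 0 ≤ q ^ j - q ^ (j + 1) := by
      have : q ^ (j + 1) ≤ q ^ j := pow_le_pow_of_le_one hq hq1 (Nat.le_succ j)
      linarith
    have h4 : (q : ℂ) ^ j - (q : ℂ) ^ (j + 1) = ((q ^ j - q ^ (j + 1) : ℝ) : ℂ) := by push_cast; ring
    rw [norm_mul, h4, Complex.norm_real, Real.norm_of_nonneg h3]
    exact mul_le_mul_of_nonneg_right (h _) h3
  have h5 : ‖∑ j ∈ range l, (∑ i ∈ range (j + 1), a i) * ((q : ℂ) ^ j - (q : ℂ) ^ (j + 1))‖ ≤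
      M * (1 - q ^ l) := by
    refine (norm_sum_le_of_le _ h2).trans ?_
    rw [← mul_sum, sum_range_sub' (fun j => q ^ j), pow_zero]
  refine (norm_add_le _ _).trans ?_
  linarith

theorem abel_one_le (a : ℕ → ℂ) (M q : ℝ) (hq : 1 ≤ q) (l : ℕ)
    (h : ∀ m n, ‖∑ i ∈ Ico m n, a i‖ ≤ M) :
    ‖∑ j ∈ range (l + 1), a j * (q : ℂ) ^ j‖ ≤ M * q ^ l := by
  have h1 : ∑ j ∈ range (l + 1), a j * (q : ℂ) ^ j = (∑ i ∈ Ico 0 (l + 1), a i) +
      ∑ j ∈ range l, (∑ i ∈ Ico (j + 1) (l + 1), a i) * ((q : ℂ) ^ (j + 1) - (q : ℂ) ^ j) := by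
    rw [abel, ← range_eq_Ico]
    have h2 : ∑ j ∈ range l, ((q : ℂ) ^ (j + 1) - (q : ℂ) ^ j) = (q : ℂ) ^ l - 1 := by
      rw [sum_range_sub (fun j => (q : ℂ) ^ j), pow_zero]
    have h3 : ∀ j ∈ range l, (∑ i ∈ Ico (j + 1) (l + 1), a i) * ((q : ℂ) ^ (j + 1) - (q : ℂ) ^ j) =
        (∑ i ∈ range (l + 1), a i) * ((q : ℂ) ^ (j + 1) - (q : ℂ) ^ j) +
          (∑ i ∈ range (j + 1), a i) * ((q : ℂ) ^ j - (q : ℂ) ^ (j + 1)) := by
      intro j hj
      have : ∑ i ∈ Ico (j + 1) (l + 1), a i = ∑ i ∈ range (l + 1), a i - ∑ i ∈ range (j + 1), a i :=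
        sum_Ico_eq_sub _ (by have := mem_range.1 hj; omega)
      rw [this]
      ring
    rw [sum_congr rfl h3, sum_add_distrib, ← mul_sum, h2]
    ring
  rw [h1]
  have h2 : ∀ j ∈ range l,
      ‖(∑ i ∈ Ico (j + 1) (l + 1), a i) * ((q : ℂ) ^ (j + 1) - (q : ℂ) ^ j)‖ ≤
      M * (q ^ (j + 1) - q ^ j) := by
    intro j _
    have h3 : 0 ≤ q ^ (j + 1) - q ^ j := by
      have : q ^ j ≤ q ^ (j + 1) := pow_le_pow_right₀ hq (Nat.le_succ j)
      linarith
    have h4 : (q : ℂ) ^ (j + 1) - (q : ℂ) ^ j = ((q ^ (j + 1) - q ^ j : ℝ) : ℂ) := by push_cast; ring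
    rw [norm_mul, h4, Complex.norm_real, Real.norm_of_nonneg h3]
    exact mul_le_mul_of_nonneg_right (h _ _) h3
  have h5 : ‖∑ j ∈ range l, (∑ i ∈ Ico (j + 1) (l + 1), a i) * ((q : ℂ) ^ (j + 1) - (q : ℂ) ^ j)‖ ≤
      M * (q ^ l - 1) := by
    refine (norm_sum_le_of_le _ h2).trans ?_
    rw [← mul_sum, sum_range_sub (fun j => q ^ j), pow_zero]
  refine (norm_add_le _ _).trans ?_
  have := h 0 (l + 1)
  linarith

theorem win_shift {c : ℕ → ℂ} {M κ : ℝ} (h : Win c M κ) (p m n : ℕ) :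
    ‖∑ j ∈ Ico m n, c (p + j) * Complex.exp (Complex.I * j * (κ : ℂ))‖ ≤ M := by
  have h1 : ∑ j ∈ Ico m n, c (p + j) * Complex.exp (Complex.I * j * (κ : ℂ)) =
      Complex.exp (-(Complex.I * p * κ)) *
        ∑ j ∈ Ico (m + p) (n + p), c j * Complex.exp (Complex.I * j * (κ : ℂ)) := by
    rw [← Finset.sum_Ico_add (fun j => c j * Complex.exp (Complex.I * j * (κ : ℂ))) m n p, mul_sum]
    refine sum_congr rfl fun j _ => ?_
    have e : Complex.exp (Complex.I * j * (κ : ℂ)) = Complex.exp (-(Complex.I * p * κ)) *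
        Complex.exp (Complex.I * ((p + j : ℕ) : ℂ) * κ) := by
      rw [← Complex.exp_add]
      congr 1
      push_cast
      ring
    rw [e]
    ring
  rw [h1, norm_mul, Complex.norm_exp]
  have h2 : (-(Complex.I * p * κ)).re = 0 := by simp
  rw [h2, Real.exp_zero, one_mul]
  exact h _ _

theorem side {c : ℕ → ℂ} {M κ : ℝ} (h : Win c M κ) (p l : ℕ) (hl : 1 ≤ l) (w : ℂ) (hw : w.re = κ) :
    ‖∑ j ∈ range l, c (p + j) * Complex.exp (Complex.I * j * w)‖ ≤
      M * max 1 (Real.exp (-(l * w.im))) := by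
  have hM : 0 ≤ M := by simpa using h 0 0
  obtain ⟨l, rfl⟩ := Nat.exists_eq_add_of_le' hl
  have hw' : w = (κ : ℂ) + w.im * Complex.I := by
    rw [← hw]
    exact (Complex.re_add_im w).symm
  have h1 : ∑ j ∈ range (l + 1), c (p + j) * Complex.exp (Complex.I * j * w) =
      ∑ j ∈ range (l + 1), (c (p + j) * Complex.exp (Complex.I * j * (κ : ℂ))) *
        ((Real.exp (-w.im) : ℝ) : ℂ) ^ j := by
    refine sum_congr rfl fun j _ => ?_
    rw [Complex.ofReal_exp, ← Complex.exp_nat_mul, mul_assoc (c (p + j)), ← Complex.exp_add]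
    congr 2
    conv_lhs => rw [hw']
    push_cast
    have := Complex.I_mul_I
    linear_combination (j : ℂ) * w.im * this
  rw [h1]
  rcases le_total 0 w.im with hy | hy
  · refine (abel_le_one _ M _ (Real.exp_pos _).le (Real.exp_le_one_iff.2 (by linarith)) l
      fun n => ?_).trans ?_
    · rw [range_eq_Ico]
      exact win_shift h p 0 n
    · exact le_mul_of_one_le_right hM (le_max_left _ _)
  · refine (abel_one_le _ M _ (Real.one_le_exp (by linarith)) l
      fun m n => win_shift h p m n).trans ?_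
    refine mul_le_mul_of_nonneg_left (le_trans ?_ (le_max_right _ _)) hM
    rw [← Real.exp_nat_mul]
    refine Real.exp_le_exp.2 ?_
    push_cast
    nlinarith

theorem t_POLY : S_POLY := by
  intro c M κ κ' l h h' hk hl3 hl p w hw1 hw2 hw3
  have hM : 0 ≤ M := by simpa using h 0 0
  have hl1 : (1 : ℝ) ≤ l := by exact_mod_cast hl
  obtain ⟨m0, hm0⟩ : ∃ m0 : ℝ, m0 = (κ + κ') / 2 := ⟨_, rfl⟩
  obtain ⟨P, hP⟩ : ∃ P : ℂ → ℂ, P = fun w => ∑ j ∈ range l, c (p + j) *
    Complex.exp (Complex.I * j * w) := ⟨_, rfl⟩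
  obtain ⟨D, hDd⟩ : ∃ D : ℂ → ℂ, D = fun w => 1 + Complex.exp (Complex.I * l * (w - m0)) := ⟨_, rfl⟩
  have hPd : Differentiable ℂ P := by
    rw [hP]
    fun_prop
  have hDd' : Differentiable ℂ D := by
    rw [hDd]
    fun_prop
  have hD : ∀ z : ℂ, κ ≤ z.re → z.re ≤ κ' → max 1 (Real.exp (-(l * z.im))) ≤ ‖D z‖ := by
    intro z h1 h2
    have e1 : (Complex.I * l * (z - m0)).re = -(l * z.im) := by simp
    have e2 : (Complex.I * l * (z - m0)).im = l * (z.re - m0) := by simp
    have hc : 0 ≤ Real.cos (l * (z.re - m0)) := by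
      have h3 : |z.re - m0| ≤ (κ' - κ) / 2 := by
        rw [abs_le]
        constructor <;> rw [hm0] <;> linarith
      have h4 : |(l : ℝ) * (z.re - m0)| ≤ 3 / 4 := by
        rw [abs_mul, abs_of_nonneg (by linarith : (0 : ℝ) ≤ l)]
        nlinarith
      have h5 := abs_le.1 h4
      have h6 := Real.pi_gt_three
      exact Real.cos_nonneg_of_neg_pi_div_two_le_of_le (by linarith) (by linarith)
    have hE := Real.exp_pos (-(l * z.im))
    have f1 : (D z).re = 1 + Real.exp (-(l * z.im)) * Real.cos (l * (z.re - m0)) := by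
      rw [hDd]
      show (1 + Complex.exp (Complex.I * l * (z - m0))).re = _
      rw [Complex.add_re, Complex.exp_re, e1, e2, Complex.one_re]
    have f2 : (D z).im = Real.exp (-(l * z.im)) * Real.sin (l * (z.re - m0)) := by
      rw [hDd]
      show (1 + Complex.exp (Complex.I * l * (z - m0))).im = _
      rw [Complex.add_im, Complex.exp_im, e1, e2, Complex.one_im, zero_add]
    have hEc : 0 ≤ Real.exp (-(l * z.im)) * Real.cos (l * (z.re - m0)) := mul_nonneg hE.le hc
    refine max_le ?_ ?_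
    · have := Complex.re_le_norm (D z)
      linarith
    · have h7 : Real.exp (-(l * z.im)) ^ 2 ≤ ‖D z‖ ^ 2 := by
        rw [Complex.sq_norm, Complex.normSq_apply, f1, f2]
        have h8 := Real.sin_sq_add_cos_sq (l * (z.re - m0))
        have h9 : (1 + Real.exp (-(l * z.im)) * Real.cos (l * (z.re - m0))) *
            (1 + Real.exp (-(l * z.im)) * Real.cos (l * (z.re - m0))) +
            Real.exp (-(l * z.im)) * Real.sin (l * (z.re - m0)) *
              (Real.exp (-(l * z.im)) * Real.sin (l * (z.re - m0))) =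
            1 + 2 * (Real.exp (-(l * z.im)) * Real.cos (l * (z.re - m0))) +
              Real.exp (-(l * z.im)) ^ 2 * (Real.sin (l * (z.re - m0)) ^ 2 +
                Real.cos (l * (z.re - m0)) ^ 2) := by ring
        rw [h9, h8]
        linarith
      exact (pow_le_pow_iff_left₀ hE.le (norm_nonneg _) two_ne_zero).1 h7
  have hDpos : ∀ z : ℂ, κ ≤ z.re → z.re ≤ κ' → 1 ≤ ‖D z‖ := fun z h1 h2 =>
    (le_max_left _ _).trans (hD z h1 h2)
  have hside : ∀ z : ℂ, (z.re = κ ∨ z.re = κ') → ‖P z / D z‖ ≤ M := by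
    intro z hz
    have h3 : κ ≤ z.re ∧ z.re ≤ κ' := by
      rcases hz with hz | hz <;> constructor <;> linarith
    have h1 : ‖P z‖ ≤ M * max 1 (Real.exp (-(l * z.im))) := by
      rw [hP]
      rcases hz with hz | hz
      · exact side h p l hl z hz
      · exact side h' p l hl z hz
    have h2 := hD z h3.1 h3.2
    have h4 := hDpos z h3.1 h3.2
    rw [norm_div, div_le_iff₀ (by linarith)]
    exact h1.trans (mul_le_mul_of_nonneg_left h2 hM)
  have key : ‖P w / D w‖ ≤ M := by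
    refine PhragmenLindelof.vertical_strip (f := fun z => P z / D z) (a := κ) (b := κ') ?_ ?_
      (fun z hz => hside z (Or.inl hz)) (fun z hz => hside z (Or.inr hz)) hw1 hw2
    · have hcl : closure (Complex.re ⁻¹' Set.Ioo κ κ') ⊆ Complex.re ⁻¹' Set.Icc κ κ' :=
        closure_minimal (Set.preimage_mono Set.Ioo_subset_Icc_self)
          (isClosed_Icc.preimage Complex.continuous_re)
      refine DifferentiableOn.diffContOnCl (DifferentiableOn.mono ?_ hcl)
      refine DifferentiableOn.fun_div hPd.differentiableOn hDd'.differentiableOn fun z hz h0 => ?_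
      have := hDpos z hz.1 hz.2
      rw [h0, norm_zero] at this
      linarith
    · refine ⟨1, ?_, l, ?_⟩
      · rw [lt_div_iff₀ (by linarith)]
        have h6 := Real.pi_gt_three
        nlinarith
      · refine Asymptotics.IsBigO.of_bound (∑ j ∈ range l, ‖c (p + j)‖) ?_
        have hev : ∀ᶠ z : ℂ in Filter.comap (abs ∘ Complex.im) Filter.atTop ⊓
            Filter.principal (Complex.re ⁻¹' Set.Ioo κ κ'), z ∈ Complex.re ⁻¹' Set.Ioo κ κ' :=
          Filter.mem_inf_of_right (Filter.mem_principal_self _)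
        filter_upwards [hev] with z hz
        have h4 := hDpos z hz.1.le hz.2.le
        have h5 : ‖P z / D z‖ ≤ ‖P z‖ := by
          rw [norm_div]
          exact div_le_self (norm_nonneg _) h4
        refine h5.trans ?_
        rw [hP, Real.norm_of_nonneg (Real.exp_pos _).le, sum_mul]
        refine norm_sum_le_of_le _ fun j hj => ?_
        rw [norm_mul, Complex.norm_exp]
        refine mul_le_mul_of_nonneg_left (Real.exp_le_exp.2 ?_) (norm_nonneg _)
        have e1 : (Complex.I * j * z).re = -(j * z.im) := by simp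
        rw [e1, one_mul]
        have h6 : -(z.im) ≤ |z.im| := neg_le_abs _
        have h7 : |z.im| ≤ Real.exp |z.im| := by
          have := Real.add_one_le_exp |z.im|
          linarith
        have h8 : (j : ℝ) ≤ l := by exact_mod_cast (mem_range.1 hj).le
        have h9 : (0 : ℝ) ≤ j := Nat.cast_nonneg j
        calc -(j * z.im) = j * (-z.im) := by ring
          _ ≤ j * |z.im| := mul_le_mul_of_nonneg_left h6 h9
          _ ≤ l * |z.im| := mul_le_mul_of_nonneg_right h8 (abs_nonneg _)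
          _ ≤ l * Real.exp |z.im| := mul_le_mul_of_nonneg_left h7 (by linarith)
  have hD2 : ‖D w‖ ≤ 2 := by
    rw [hDd]
    refine (norm_add_le _ _).trans ?_
    rw [norm_one, Complex.norm_exp]
    have e1 : (Complex.I * l * (w - m0)).re = -(l * w.im) := by simp
    rw [e1]
    have : Real.exp (-(l * w.im)) ≤ 1 := Real.exp_le_one_iff.2 (by nlinarith)
    linarith
  have hDw := hDpos w hw1 hw2
  rw [norm_div, div_le_iff₀ (by linarith)] at key
  have h9 : ‖P w‖ ≤ M * 2 := key.trans (mul_le_mul_of_nonneg_left hD2 hM)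
  rw [hP] at h9
  linarith

end Pool.Agent.E8helper71.PS
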